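import Pool.Graph.R_pool_sql_team_seeded_ab47071d.TH313.HI.Main
import Pool.Agent.H270.Bibasic

/-!
# MP_797ebb_an, Q1: a Banach space without bibasic systems `(x_n, f_n)` such that `{f_n} ∼ {f_n|_{[x_j]}}`

If `(x_n, f_n)` is biorthogonal, `{x_n}` is basic and `{f_n}` is equivalent to the coefficient functionals
`φ_n = f_n|_{[x_j]}`, then the finite rank operators `U_N z = ∑_{n<N} f_n(z) x_n` on `E` are uniformly bounded
(`Pool.Agent.H270.Bibasic.bounded_UU`), and `U_N y → y` for `y ∈ [x_j]`.

Let `E` be the complex Banach space `ZT` (a space of Davie's vectors inside a mixed Tsirelson space with coded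
functionals), constructed in the module imported above. There is a character `λ` of the algebra of operators
on `E`, which is continuous along bounded sequences in a strong sense: if `T_N` is a bounded sequence of
operators with `λ(T_N) = 1` and `T_N y → 0` for all `y` of a closed subspace `Y`, then `Y` is finite-dimensional.
As `λ(U_N) = 0`, the operators `T_N = 1 - U_N` and `Y = [x_j]` give a contradiction.
-/

set_option autoImplicit false

namespace Pool.Agent.Results.MP_797ebb_an.NoEquivalentBibasic

open Filter Topology Finset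
open Pool.Agent.TH313.HI Pool.Agent.H270.Bibasic

/-- finite rank operators have scalar zero -/
theorem lamZ_of_finite (T : ZT →L[ℂ] ZT) (hT : FiniteDimensional ℂ (LinearMap.range (T : ZT →ₗ[ℂ] ZT))) :
    lamZ T = 0 := by
  by_contra hne
  -- the kernel is finite-dimensional
  have hker : FiniteDimensional ℂ (LinearMap.ker (T : ZT →ₗ[ℂ] ZT)) := by
    have hcpt : IsCompact (Metric.closedBall (0 : LinearMap.ker (T : ZT →ₗ[ℂ] ZT)) 1) := by
      rw [isCompact_iff_isSeqCompact]
      intro x hx
      obtain ⟨φ, hφ, y, hy⟩ := hprop T hne (fun n => (x n : ZT)) ⟨1, fun n => by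
        have := hx n
        rw [mem_closedBall_zero_iff] at this
        exact this⟩ (by
          refine tendsto_const_nhds.congr fun n => ?_
          exact ((x n).2 : T (x n : ZT) = 0).symm)
      have hyY : y ∈ LinearMap.ker (T : ZT →ₗ[ℂ] ZT) :=
        T.isClosed_ker.mem_of_tendsto hy (Eventually.of_forall fun n => (x (φ n)).2)
      refine ⟨⟨y, hyY⟩, ?_, φ, hφ, ?_⟩
      · rw [mem_closedBall_zero_iff]
        have h6 : ‖y‖ ≤ 1 := le_of_tendsto' hy.norm fun n => by
          have := hx (φ n)
          rw [mem_closedBall_zero_iff] at this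
          exact this
        exact h6
      · rw [tendsto_subtype_rng]
        exact hy
    exact FiniteDimensional.of_isCompact_closedBall ℂ one_pos hcpt
  apply Pool.Agent.TH313.HI.not_finite
  obtain ⟨q, hq⟩ := (LinearMap.ker (T : ZT →ₗ[ℂ] ZT)).exists_isCompl
  have hq' : FiniteDimensional ℂ q := by
    refine FiniteDimensional.of_injective ((T : ZT →ₗ[ℂ] ZT).rangeRestrict.comp q.subtype) ?_
    rw [injective_iff_map_eq_zero]
    intro z hz
    have h1 : (T : ZT →ₗ[ℂ] ZT) z = 0 := congrArg Subtype.val hz
    have h2 : (z : ZT) ∈ LinearMap.ker (T : ZT →ₗ[ℂ] ZT) ⊓ q := ⟨h1, z.2⟩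
    rw [hq.inf_eq_bot] at h2
    exact Subtype.ext ((Submodule.mem_bot ℂ).1 h2)
  have h3 : (⊤ : Submodule ℂ ZT) = LinearMap.ker (T : ZT →ₗ[ℂ] ZT) ⊔ q := hq.sup_eq_top.symm
  have h4 : FiniteDimensional ℂ (⊤ : Submodule ℂ ZT) := by
    rw [h3]
    exact Submodule.finiteDimensional_sup _ _
  exact Module.finite_def.2 (by rw [← Submodule.fg_iff_finiteDimensional] at h4; exact h4)

/-- There is an infinite-dimensional (separable, complex) Banach space `E` such that for all biorthogonal
systems `(x_n, f_n)` in `E × E*` for which `{x_n}` is basic, in particular for all infinite bibasic systems,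
the sequence `{f_n}` is not equivalent to the sequence of the coefficient functionals `φ_n = f_n|_{[x_j]}`. -/
theorem result : ∃ (E : Type) (_ : NormedAddCommGroup E) (_ : NormedSpace ℂ E), CompleteSpace E ∧
    TopologicalSpace.SeparableSpace E ∧ ¬ FiniteDimensional ℂ E ∧
    ∀ (x : ℕ → E) (f : ℕ → E →L[ℂ] ℂ), (∀ m n, f m (x n) = if m = n then 1 else 0) →
      IsBasicSeq ℂ x →
      ¬ SeqEquiv ℂ f (fun n => (f n).comp (Submodule.span ℂ (Set.range x)).topologicalClosure.subtypeL) := by
  refine ⟨ZT, inferInstance, inferInstance, inferInstance, separable, Pool.Agent.TH313.HI.not_finite, fun x f hb hx he => ?_⟩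
  obtain ⟨C, hC⟩ := bounded_UU hb hx he
  have hfin : ∀ N, lamZ (UU x f N) = 0 := fun N => by
    apply lamZ_of_finite
    have h1 : LinearMap.range (UU x f N : ZT →ₗ[ℂ] ZT) ≤ Submodule.span ℂ (x '' (range N : Set ℕ)) := by
      rintro _ ⟨z, rfl⟩
      show UU x f N z ∈ _
      rw [UU_apply]
      exact Submodule.sum_mem _ fun n hn => Submodule.smul_mem _ _ (Submodule.subset_span ⟨n, hn, rfl⟩)
    have h2 : FiniteDimensional ℂ (Submodule.span ℂ (x '' (range N : Set ℕ))) :=
      FiniteDimensional.span_of_finite ℂ ((range N).finite_toSet.image x)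
    exact Submodule.finiteDimensional_of_le h1
  have hY := Pool.Agent.TH313.HI.hfin (fun N => 1 - UU x f N) ⟨‖(1 : ZT →L[ℂ] ZT)‖ + C, fun N =>
    (norm_sub_le _ _).trans (add_le_add le_rfl (hC N))⟩ (fun N => by rw [map_sub, map_one, hfin, sub_zero])
    (cspan ℂ x) (Submodule.isClosed_topologicalClosure _) (fun y hy => by
      have h1 := (tendsto_UU hb hx hy).const_sub y
      rw [sub_self] at h1
      exact h1)
  have hli := linearIndependent_of hb
  have hli' : LinearIndependent ℂ (fun n => (⟨x n, Submodule.le_topologicalClosure _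
      (Submodule.subset_span ⟨n, rfl⟩)⟩ : cspan ℂ x)) :=
    LinearIndependent.of_comp (cspan ℂ x).subtype hli
  have hfi := hli'.finite
  exact _root_.not_finite ℕ

end Pool.Agent.Results.MP_797ebb_an.NoEquivalentBibasic
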